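import Pool.Agent.J6H17.RF.Stm

/-!
# RF-CHK: the proofs from a theory are recognizable in polynomial time relative to the oracle
-/

set_option autoImplicit false

namespace Pool.Agent.J6H68.RF.Chk

open Pool.Agent.NPC Pool.Agent.H628R3.RO Pool.Agent.J6H17.RF

/-- modus ponens, on codes -/
def mpT (l : List T) (t : T) : Bool :=
  l.any (fun s => decide (T.node (toT (4 : ℕ)) (T.node s t) ∈ l))

/-- generalization, on codes -/
def genT (l : List T) (t : T) : Bool :=
  decide (t = T.node (toT (5 : ℕ)) (T.node t.tl.hd t.tl.tl)) &&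
    ((TDec.dec t.tl.hd : Option ℕ).isSome && decide (t.tl.tl ∈ l))

/-- the line is justified by one of the rules -/
def just (l : List T) (t : T) : Bool := mpT l t || genT l t

/-- one step of the fold -/
def stepP (t : T) (s : List T × List T) : List T × List T :=
  (t :: s.1, bif just s.1 t then s.2 else t :: s.2)

/-- the lines which are not justified by the rules -/
def P (l : List T) : List T := (l.foldr stepP ([], [])).2

theorem fold_fst (l : List T) : (l.foldr stepP ([], [])).1 = l := by
  induction l with
  | nil => rfl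
  | cons t l ih => rw [List.foldr_cons, stepP, ih]

theorem P_cons (t : T) (l : List T) : P (t :: l) = bif just l t then P l else t :: P l := by
  unfold P
  rw [List.foldr_cons, stepP, fold_fst]

theorem poly_just : Poly (fun p : List T × T => just p.1 p.2) := by
  refine Poly.or ?_ ?_
  · exact Poly.any (l := fun p : List T × T => p.1)
      (p := fun p s => decide (T.node (toT (4 : ℕ)) (T.node s p.2) ∈ p.1)) (Poly.fst Poly.id)
      (Poly.decide_mem (Poly.node (NPC.Poly.const _)
        (Poly.node (Poly.snd Poly.id) (Poly.snd (Poly.fst Poly.id)))) (Poly.fst (Poly.fst Poly.id)))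
  · have h1 : Poly (fun p : List T × T => p.2.tl.hd) := Poly.hd (Poly.tl (Poly.snd Poly.id))
    have h2 : Poly (fun p : List T × T => p.2.tl.tl) := Poly.tl (Poly.tl (Poly.snd Poly.id))
    exact Poly.and (Poly.decide_eq (Poly.snd Poly.id)
      (Poly.node (NPC.Poly.const _) (Poly.node h1 h2)))
      (Poly.and (Poly.isSome ((TDec.poly_dec (α := ℕ)).comp h1))
        (Poly.decide_mem h2 (Poly.fst Poly.id)))

theorem sz_fold (l : List T) : sz (l.foldr stepP ([], [])) ≤ 2 * sz l + 1 := by
  induction l with
  | nil => simp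
  | cons t l ih =>
    rw [List.foldr_cons, stepP]
    have h1 : sz (bif just (l.foldr stepP ([], [])).1 t then (l.foldr stepP ([], [])).2
        else t :: (l.foldr stepP ([], [])).2) ≤ sz t + sz (l.foldr stepP ([], [])).2 + 1 := by
      cases just (l.foldr stepP ([], [])).1 t
      · simp
      · simp only [cond_true]
        omega
    have h2 : sz (l.foldr stepP ([], [])) =
        sz (l.foldr stepP ([], [])).1 + sz (l.foldr stepP ([], [])).2 + 1 := by
      rw [← sz_pair]
    rw [sz_pair, sz_list_cons, sz_list_cons]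
    omega

theorem poly_P : Poly P := by
  refine Poly.snd (Poly.foldr (α := List T) (l := fun a => a) (s := fun _ => ([], []))
    (F := fun _ t s => stepP t s) Poly.id (NPC.Poly.const _) ?_
    (Polynomial.C 2 * Polynomial.X + Polynomial.C 1) ?_)
  · have h1 : Poly (fun p : List T × T × List T × List T => p.2.1) := Poly.fst (Poly.snd Poly.id)
    have h2 : Poly (fun p : List T × T × List T × List T => p.2.2.1) :=
      Poly.fst (Poly.snd (Poly.snd Poly.id))
    have h3 : Poly (fun p : List T × T × List T × List T => p.2.2.2) :=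
      Poly.snd (Poly.snd (Poly.snd Poly.id))
    exact Poly.pair (Poly.cons h1 h2) (Poly.cond (poly_just.comp (Poly.pair h2 h1)) h3
      (Poly.cons h1 h3))
  · intro a k _
    have h2 := Poly.sz_drop_le a k
    refine (sz_fold (a.drop k)).trans ?_
    simp only [Polynomial.eval_add, Polynomial.eval_mul, Polynomial.eval_C, Polynomial.eval_X]
    omega

/-! ### Codes -/

theorem just_of_rule {π : List Fm} {φ : Fm}
    (h : (∃ ψ ∈ π, ψ.imp φ ∈ π) ∨ ∃ ψ ∈ π, ∃ x, φ = Fm.all x ψ) :
    just (π.map Fm.code) φ.code = true := by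
  unfold just
  rw [Bool.or_eq_true]
  rcases h with ⟨ψ, h1, h2⟩ | ⟨ψ, h1, x, rfl⟩
  · left
    unfold mpT
    rw [List.any_eq_true]
    exact ⟨ψ.code, List.mem_map_of_mem h1, decide_eq_true (List.mem_map_of_mem (f := Fm.code) h2)⟩
  · right
    unfold genT
    rw [Bool.and_eq_true, Bool.and_eq_true]
    refine ⟨decide_eq_true rfl, ?_, decide_eq_true (List.mem_map_of_mem (f := Fm.code) h1)⟩
    change (TDec.dec (toT x) : Option ℕ).isSome = true
    rw [TDec.dec_toT]
    rfl

theorem imp_of_code {χ : Fm} {s t : T} (h : χ.code = T.node (toT (4 : ℕ)) (T.node s t)) :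
    ∃ a b : Fm, χ = a.imp b ∧ a.code = s ∧ b.code = t := by
  cases χ with
  | bot => exact absurd h (by simp only [Fm.code, reduceCtorEq, not_false_eq_true])
  | eq a b =>
    simp only [Fm.code, T.node.injEq] at h
    exact absurd (tag_inj h.1) (by decide)
  | le a b =>
    simp only [Fm.code, T.node.injEq] at h
    exact absurd (tag_inj h.1) (by decide)
  | orc a =>
    simp only [Fm.code, T.node.injEq] at h
    exact absurd (tag_inj h.1) (by decide)
  | imp a b =>
    simp only [Fm.code, T.node.injEq] at h
    exact ⟨a, b, rfl, h.2.1, h.2.2⟩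
  | all x a =>
    simp only [Fm.code, T.node.injEq] at h
    exact absurd (tag_inj h.1) (by decide)

theorem rule_of_just {π : List Fm} {t : T} (h : just (π.map Fm.code) t = true) :
    ∃ φ : Fm, φ.code = t ∧ ((∃ ψ ∈ π, ψ.imp φ ∈ π) ∨ ∃ ψ ∈ π, ∃ x, φ = Fm.all x ψ) := by
  unfold just at h
  rw [Bool.or_eq_true] at h
  rcases h with h | h
  · unfold mpT at h
    rw [List.any_eq_true] at h
    obtain ⟨s, hs, h1⟩ := h
    obtain ⟨ψ, hψ, rfl⟩ := List.mem_map.1 hs
    obtain ⟨χ, hχ, h2⟩ := List.mem_map.1 (of_decide_eq_true h1)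
    obtain ⟨a, b, rfl, h3, rfl⟩ := imp_of_code h2
    have h4 : a = ψ := Fm.code_injective h3
    subst h4
    exact ⟨b, rfl, Or.inl ⟨a, hψ, hχ⟩⟩
  · unfold genT at h
    rw [Bool.and_eq_true, Bool.and_eq_true] at h
    obtain ⟨h1, h2, h3⟩ := h
    obtain ⟨n, hn⟩ := Option.isSome_iff_exists.1 h2
    obtain ⟨ψ, hψ, h4⟩ := List.mem_map.1 (of_decide_eq_true h3)
    refine ⟨Fm.all n ψ, ?_, Or.inr ⟨ψ, hψ, n, rfl⟩⟩
    rw [of_decide_eq_true h1, ← TDec.toT_dec _ _ hn, ← h4]
    rfl

theorem proof_iff {Γ : Set Fm} {D : List Bool → List Bool}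
    (hD : ∀ y, D y = [true] ↔ ∃ φ ∈ Γ, bits φ = y) (l : List T) :
    (∃ π : List Fm, π.map Fm.code = l ∧ IsProof Γ π) ↔ ∀ t ∈ P l, D t.enc = [true] := by
  induction l with
  | nil =>
    constructor
    · intro _ t ht
      exact absurd ht (by simp [P])
    · intro _
      exact ⟨[], rfl, trivial⟩
  | cons t l ih =>
    rw [P_cons]
    constructor
    · rintro ⟨π, hπ, hp⟩
      cases π with
      | nil => simp at hπ
      | cons φ π =>
        rw [List.map_cons, List.cons.injEq] at hπ
        obtain ⟨rfl, rfl⟩ := hπ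
        have h1 := ih.1 ⟨π, rfl, hp.1⟩
        rcases hp.2 with h2 | h2
        · intro s hs
          cases hj : just (π.map Fm.code) φ.code
          · rw [hj, cond_false, List.mem_cons] at hs
            rcases hs with rfl | hs
            · exact (hD _).2 ⟨φ, h2, rfl⟩
            · exact h1 s hs
          · rw [hj, cond_true] at hs
            exact h1 s hs
        · rw [just_of_rule h2, cond_true]
          exact h1
    · intro h
      cases hj : just l t
      · rw [hj, cond_false] at h
        obtain ⟨π, rfl, hp⟩ := ih.2 (fun s hs => h s (List.mem_cons_of_mem _ hs))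
        obtain ⟨φ, h1, h2⟩ := (hD _).1 (h t List.mem_cons_self)
        have h3 : φ.code = t := T.enc_injective h2
        exact ⟨φ :: π, by rw [List.map_cons, h3], hp, Or.inl h1⟩
      · rw [hj, cond_true] at h
        obtain ⟨π, rfl, hp⟩ := ih.2 h
        obtain ⟨φ, h1, h2⟩ := rule_of_just hj
        exact ⟨φ :: π, by rw [List.map_cons, h1], hp, Or.inr h2⟩

theorem bits_map (π : List Fm) : bits π = bits (π.map Fm.code) := by
  unfold bits
  congr 1
  change T.ofList _ = T.ofList ((π.map Fm.code).map (fun t => t))
  rw [List.map_id']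
  rfl

/-- a tree which is not the code of a formula -/
def bad : T := T.node T.nil T.nil

theorem bad_ne (φ : Fm) : φ.code ≠ bad := by
  have h0 : (T.nil : T) = toT (0 : ℕ) := by
    rw [toT_nat, Nat.zero_bits]
    rfl
  unfold bad
  intro h
  cases φ with
  | bot => exact absurd h (by simp only [Fm.code, reduceCtorEq, not_false_eq_true])
  | eq a b =>
    simp only [Fm.code, T.node.injEq] at h
    exact absurd (tag_inj (h.1.trans h0)) (by decide)
  | le a b =>
    simp only [Fm.code, T.node.injEq] at h
    exact absurd (tag_inj (h.1.trans h0)) (by decide)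
  | orc a =>
    simp only [Fm.code, T.node.injEq] at h
    exact absurd (tag_inj (h.1.trans h0)) (by decide)
  | imp a b =>
    simp only [Fm.code, T.node.injEq] at h
    exact absurd (tag_inj (h.1.trans h0)) (by decide)
  | all x a =>
    simp only [Fm.code, T.node.injEq] at h
    exact absurd (tag_inj (h.1.trans h0)) (by decide)

/-- the list of the trees to be tested -/
def tst (y : List Bool) : List T :=
  match unbits (List T) y with
  | none => [bad]
  | some l => P l

theorem poly_tst : Poly tst := by
  refine (Poly.optCases (o := unbits (List T)) (g := fun _ => [bad]) (h := fun _ l => P l)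
    poly_unbits (NPC.Poly.const _) (poly_P.comp (Poly.snd Poly.id))).congr fun a => ?_
  unfold tst
  cases unbits (List T) a <;> rfl

theorem main (h1 : S_OPC) (h2 : S_ALL) : S_CHK := by
  intro A Γ hΓ
  obtain ⟨D, hDA, hD⟩ := hΓ.2
  obtain ⟨D', hD', hall⟩ := h2 A D hDA
  obtain ⟨c1, -, c3, -, c5, c6⟩ := h1 A
  refine ⟨fun y => D' (bits (tst y)), ?_, fun y => ?_⟩
  · apply c5
    exact c1 (List Bool) T (List Bool) (fun y => toT (tst y)) (fun t => D' t.enc)
      (c3 (List Bool) T _ (Poly.toT' poly_tst)) (c6 D' hD')
  · rw [hall]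
    unfold tst
    cases hy : unbits (List T) y with
    | none =>
      constructor
      · intro h
        exfalso
        obtain ⟨φ, -, h3⟩ := (hD _).1 (h bad (by simp))
        exact bad_ne φ (T.enc_injective h3)
      · rintro ⟨π, h3, -⟩
        rw [← h3, bits_map, unbits_bits] at hy
        exact absurd hy (by simp)
    | some l =>
      change (∀ t ∈ P l, D t.enc = [true]) ↔ _
      rw [← proof_iff hD l]
      have hl := bits_of_unbits hy
      constructor
      · rintro ⟨π, rfl, hp⟩
        exact ⟨π, by rw [bits_map, hl], hp⟩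
      · rintro ⟨π, h3, hp⟩
        refine ⟨π, ?_, hp⟩
        rw [bits_map, ← hl] at h3
        exact bits_injective h3

end Pool.Agent.J6H68.RF.Chk
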